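import Pool.Agent.Y813.LE.Stm2

set_option autoImplicit false

/-!
# Characters of the discriminant kernel have order dividing 12 on transvections

The statement `JobChar` of `Pool.Agent.Y813.LE.Stm2`.
-/

namespace Pool.Agent.Y319.LE

section general

open Pool.Agent.Y813.RL

variable {ι : Type} [Fintype ι] [DecidableEq ι] {B : Matrix ι ι ℤ}

open Pool.Agent.Y813.Refl (act act_mul act_one)

theorem mat_ext {M M' : Matrix ι ι ℤ} (h : ∀ x : ι → ℤ, act M x = act M' x) : M = M' := by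
  ext i j
  have := congrFun (h (Pi.single j 1)) i
  simpa [act, Pi.single_apply] using this

theorem act_tvZ (hB : B.IsSymm) (e a : ι → ℤ) (N : ℤ) (x : ι → ℤ) :
    act (tvM B e a N) x = tv B e a N x := act_tvM hB e a N x

theorem tvM_comp (hB : B.IsSymm) {e a b : ι → ℤ} {N N' : ℤ} (hee : bf B e e = 0)
    (hea : bf B e a = 0) (heb : bf B e b = 0) :
    tvM B e a N * tvM B e b N' = tvM B e (a + b) (N + N' + bf B a b) := by
  have hae : bf B a e = 0 := by rw [bf_comm hB, hea]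
  apply mat_ext
  intro x
  rw [act_mul, act_tvZ hB, act_tvZ hB, act_tvZ hB]
  simp only [tv, bf_sub_right, bf_add_right, bf_smul_right, bf_add_left, hee, heb, hae]
  funext i
  simp only [Pi.add_apply, Pi.sub_apply, Pi.smul_apply, smul_eq_mul]
  ring

omit [DecidableEq ι] in
theorem act_lin (g : Matrix ι ι ℤ) (c d : ℤ) (x e a : ι → ℤ) (u : ℤ) :
    act g (x - c • e + d • a - u • e) =
      act g x - c • act g e + d • act g a - u • act g e := by
  funext i
  simp only [act, Pi.add_apply, Pi.sub_apply, Pi.smul_apply, smul_eq_mul, Int.cast_id,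
    Finset.mul_sum, ← Finset.sum_add_distrib, ← Finset.sum_sub_distrib]
  exact Finset.sum_congr rfl fun j _ => by ring

theorem tvM_conj (hB : B.IsSymm) {g : Matrix ι ι ℤ}
    (hg : ∀ x y : ι → ℤ, bf B (act g x) (act g y) = bf B x y) (e a : ι → ℤ) (N : ℤ) :
    g * tvM B e a N = tvM B (act g e) (act g a) N * g := by
  apply mat_ext
  intro x
  rw [act_mul, act_mul, act_tvZ hB, act_tvZ hB]
  simp only [tv, hg]
  exact act_lin g _ _ x e a _

theorem tvM_zero (B : Matrix ι ι ℤ) (e : ι → ℤ) : tvM B e 0 0 = 1 := by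
  ext i j
  simp [tvM, act, Matrix.one_apply]

theorem tvM_swap (hB : B.IsSymm) (e a : ι → ℤ) : tvM B e a 0 = tvM B a (-e) 0 := by
  apply mat_ext
  intro x
  rw [act_tvZ hB, act_tvZ hB]
  funext i
  simp only [tv, Pi.add_apply, Pi.sub_apply, Pi.smul_apply, smul_eq_mul, bf_neg_left,
    Pi.neg_apply]
  ring

/-- the hypotheses: a group of isometries containing the transvections -/
structure Hyp (B : Matrix ι ι ℤ) (D : Subgroup (Matrix.GeneralLinearGroup ι ℤ)) : Prop where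
  symm : B.IsSymm
  even : ∀ v : ι → ℤ, ∃ N : ℤ, bf B v v = 2 * N
  form : ∀ g : D, ∀ x y : ι → ℤ, bf B (act g.1.val x) (act g.1.val y) = bf B x y
  tv : ∀ (e a : ι → ℤ) (N : ℤ), bf B e e = 0 → bf B e a = 0 → bf B a a = 2 * N →
    ∃ g : D, g.1.val = tvM B e a N

/-- the character has order dividing 12 on the transvection -/
def PP (B : Matrix ι ι ℤ) (D : Subgroup (Matrix.GeneralLinearGroup ι ℤ)) (χ : D →* ℂˣ)
    (e a : ι → ℤ) : Prop :=
  ∀ (N : ℤ) (g : D), bf B a a = 2 * N → g.1.val = tvM B e a N → χ g ^ 12 = 1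

variable {D : Subgroup (Matrix.GeneralLinearGroup ι ℤ)} {χ : D →* ℂˣ}

theorem eq_of_val {g h : D} (e : g.1.val = h.1.val) : g = h := Subtype.ext (Units.ext e)

theorem PP.zero (e : ι → ℤ) : PP B D χ e 0 := by
  intro N g hN hg
  rw [bf_zero_left] at hN
  have h0 : N = 0 := by omega
  subst h0
  have : g = 1 := eq_of_val (by rw [hg, tvM_zero]; rfl)
  rw [this, map_one, one_pow]

theorem PP.add (h : Hyp B D) {e a b : ι → ℤ} (hee : bf B e e = 0) (hea : bf B e a = 0)
    (heb : bf B e b = 0) (ha : PP B D χ e a) (hb : PP B D χ e b) : PP B D χ e (a + b) := by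
  intro N g hN hg
  obtain ⟨Na, hNa⟩ := h.even a
  obtain ⟨Nb, hNb⟩ := h.even b
  obtain ⟨ga, hga⟩ := h.tv e a Na hee hea hNa
  obtain ⟨gb, hgb⟩ := h.tv e b Nb hee heb hNb
  have hN2 : N = Na + Nb + bf B a b := by
    rw [bf_add_left, bf_add_right, bf_add_right, bf_comm h.symm b a] at hN
    omega
  have : g = ga * gb := eq_of_val (by
    rw [hg, hN2, ← tvM_comp h.symm hee hea heb, ← hga, ← hgb]; rfl)
  rw [this, map_mul, mul_pow, ha Na ga hNa hga, hb Nb gb hNb hgb, one_mul]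

theorem PP.neg (h : Hyp B D) {e a : ι → ℤ} (hee : bf B e e = 0) (hea : bf B e a = 0)
    (ha : PP B D χ e a) : PP B D χ e (-a) := by
  intro N g hN hg
  have hN' : bf B a a = 2 * N := by rwa [bf_neg_left, bf_neg_right, neg_neg] at hN
  obtain ⟨ga, hga⟩ := h.tv e a N hee hea hN'
  have : ga * g = 1 := eq_of_val (by
    show ga.1.val * g.1.val = 1
    rw [hga, hg]
    exact tvM_mul h.symm hee hea hN')
  have h2 : χ ga * χ g = 1 := by rw [← map_mul, this, map_one]
  have h3 : χ ga ^ 12 * χ g ^ 12 = 1 := by rw [← mul_pow, h2, one_pow]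
  rwa [ha N ga hN' hga, one_mul] at h3

/-- the vectors with trivial twelfth powers -/
def SS (h : Hyp B D) (χ : D →* ℂˣ) (e : ι → ℤ) (hee : bf B e e = 0) : AddSubgroup (ι → ℤ) where
  carrier := {a | bf B e a = 0 ∧ PP B D χ e a}
  zero_mem' := ⟨bf_zero_right _ _, PP.zero e⟩
  add_mem' := fun {a b} ha hb => ⟨by rw [bf_add_right, ha.1, hb.1, add_zero],
    PP.add h hee ha.1 hb.1 ha.2 hb.2⟩
  neg_mem' := fun {a} ha => ⟨by rw [bf_neg_right, ha.1, neg_zero], PP.neg h hee ha.1 ha.2⟩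

theorem PP.conj (h : Hyp B D) {e a : ι → ℤ} (hee : bf B e e = 0) (hea : bf B e a = 0) (g : D)
    (ha : PP B D χ e a) : PP B D χ (act g.1.val e) (act g.1.val a) := by
  intro N k hN hk
  rw [h.form] at hN
  obtain ⟨t, ht⟩ := h.tv e a N hee hea hN
  have : g * t = k * g := eq_of_val (by
    show g.1.val * t.1.val = k.1.val * g.1.val
    rw [ht, hk]
    exact tvM_conj h.symm (h.form g) e a N)
  have h2 : χ t = χ k := by
    have := congrArg χ this
    rw [map_mul, map_mul, mul_comm (χ k)] at this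
    exact mul_left_cancel this
  rw [← h2]
  exact ha N t hN ht

theorem PP.comm (h : Hyp B D) {e c : ι → ℤ} (hee : bf B e e = 0) (hec : bf B e c = 0) (g : D)
    (hge : act g.1.val e = e) : PP B D χ e (act g.1.val c - c) := by
  intro N k hN hk
  obtain ⟨Nc, hNc⟩ := h.even c
  obtain ⟨t, ht⟩ := h.tv e c Nc hee hec hNc
  have hegc : bf B e (act g.1.val c) = 0 := by
    conv_lhs => rw [← hge]
    rw [h.form, hec]
  have hgc : bf B (act g.1.val c) (act g.1.val c) = 2 * Nc := by rw [h.form, hNc]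
  obtain ⟨t', ht'⟩ := h.tv e (act g.1.val c) Nc hee hegc hgc
  have h1 : g * t = t' * g := eq_of_val (by
    show g.1.val * t.1.val = t'.1.val * g.1.val
    rw [ht, ht', tvM_conj h.symm (h.form g) e c Nc, hge])
  have h2 : t' = k * t := eq_of_val (by
    show t'.1.val = k.1.val * t.1.val
    rw [ht, hk, tvM_comp h.symm hee (by rw [bf_sub_right, hegc, hec, sub_zero]) hec, ht']
    congr 1
    · abel
    · rw [bf_sub_left, bf_sub_right, bf_sub_right, hgc, hNc, bf_comm h.symm c] at hN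
      rw [bf_sub_left]
      omega)
  have h3 : χ k = 1 := by
    have := congrArg χ h1
    rw [h2, map_mul, map_mul, map_mul] at this
    have h4 : χ k * (χ t * χ g) = 1 * (χ t * χ g) := by
      rw [one_mul, ← mul_assoc, ← this, mul_comm]
    exact mul_right_cancel h4
  rw [h3, one_pow]

end general

section concrete

open Pool.Agent.Y813.LE
open Pool.Agent.Y813.RL (bf tv tvM tvG tvM_mul tvG_mem bf_comm bf_zero_left bf_zero_right
  bf_add_left bf_add_right bf_smul_left bf_smul_right bf_neg_left bf_neg_right bf_sub_left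
  bf_sub_right even_bf PS PW PS_mul PS_mul' PW_mul)
open Pool.Agent.Y813.Lee (gramM)
open Pool.Agent.Y813.Refl (form quadric act discKernel gramUU act_mul act_one)

variable {r : ℕ} {G : Matrix (Fin r) (Fin r) ℤ}

theorem gramM_evenR (he : ∀ i, Even (G i i)) (i : Fin 4 ⊕ Fin r) : Even (gramM G i i) := by
  rcases i with i | i
  · match i with
    | 0 => simp [gramM, gramUU]
    | 1 => simp [gramM, gramUU]
    | 2 => simp [gramM, gramUU]
    | 3 => simp [gramM, gramUU]
  · simpa [gramM] using he i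

theorem hyp (hG : PosD G) (he : ∀ i, Even (G i i)) :
    Hyp (gramM G) (discKernel (gramM G) (coneM G)) where
  symm := gramM_symm hG.symm
  even := fun v => even_bf (gramM_symm hG.symm) (gramM_evenR he) v
  form := fun g x y => g.2.1 x y
  tv := by
    intro e a N hee hea haa
    refine ⟨⟨tvG (gramM_symm hG.symm) hee hea haa, ?_⟩, rfl⟩
    rw [coneM_eq]
    exact tvG_mem _ (base_mem G) hee hea haa

theorem mk_add' (a b c d a' b' c' d' : ℤ) (z z' : Fin r → ℤ) :
    mk a b c d z + mk a' b' c' d' z' = mk (a + a') (b + b') (c + c') (d + d') (z + z') := by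
  funext i
  rcases i with i | i
  · fin_cases i <;> rfl
  · rfl

theorem mk_sub' (a b c d a' b' c' d' : ℤ) (z z' : Fin r → ℤ) :
    mk a b c d z - mk a' b' c' d' z' = mk (a - a') (b - b') (c - c') (d - d') (z - z') := by
  funext i
  rcases i with i | i
  · fin_cases i <;> rfl
  · rfl

theorem mk_neg' (a b c d : ℤ) (z : Fin r → ℤ) :
    - mk a b c d z = mk (-a) (-b) (-c) (-d) (-z) := by
  funext i
  rcases i with i | i
  · fin_cases i <;> rfl
  · rfl

theorem mk_smul' (n a b c d : ℤ) (z : Fin r → ℤ) :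
    n • mk a b c d z = mk (n * a) (n * b) (n * c) (n * d) (n • z) := by
  funext i
  rcases i with i | i
  · fin_cases i <;> rfl
  · rfl

/-- the isotropic vector `e1` -/
abbrev e1 (r : ℕ) : Fin 4 ⊕ Fin r → ℤ := mk 0 1 0 0 0

theorem e1_iso : bf (gramM G) (e1 r) (e1 r) = 0 := by
  rw [bf_mk, bf_zero_left]; ring

variable {χ : discKernel (gramM G) (coneM G) →* ℂˣ}

/-- the element given by `PS` -/
theorem exS (G : Matrix (Fin r) (Fin r) ℤ) :
    ∃ s : discKernel (gramM G) (coneM G), s.1.val = blk PS := ⟨⟨_, PS_mem⟩, rfl⟩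

/-- the element given by `PW` -/
theorem exW (G : Matrix (Fin r) (Fin r) ℤ) :
    ∃ s : discKernel (gramM G) (coneM G), s.1.val = blk PW := ⟨⟨_, PW_mem⟩, rfl⟩

theorem chi_PS {s : discKernel (gramM G) (coneM G)} (hs : s.1.val = blk PS) : χ s ^ 4 = 1 := by
  have : s * s * s * s = 1 := eq_of_val (by
    show s.1.val * s.1.val * s.1.val * s.1.val = 1
    rw [hs]
    apply mat_ext
    intro x
    rw [act_mul, act_mul, act_mul, mk_eta x, act_PS, act_PS, act_PS, act_PS, act_one]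
    simp)
  have h2 := congrArg χ this
  rw [map_mul, map_mul, map_mul, map_one] at h2
  rw [pow_succ, pow_succ, pow_two]
  exact h2

theorem chi_PW {s : discKernel (gramM G) (coneM G)} (hs : s.1.val = blk PW) : χ s ^ 2 = 1 := by
  have : s * s = 1 := eq_of_val (by
    show s.1.val * s.1.val = 1
    rw [hs]
    apply mat_ext
    intro x
    rw [act_mul, mk_eta x, act_PW, act_PW, act_one])
  have h2 := congrArg χ this
  rw [map_mul, map_one] at h2
  rw [pow_two]
  exact h2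

theorem act_T (hG : G.IsSymm) (a b c d : ℤ) (z : Fin r → ℤ) :
    act (tvM (gramM G) (e1 r) (mk 0 0 0 1 0) 0) (mk a b c d z) = mk a (b - c) c (d + a) z := by
  rw [act_tvZ (gramM_symm hG), tv, bf_mk, bf_mk]
  simp only [mk_smul', mk_add', mk_sub', bf_zero_left]
  congr 1 <;> ring

theorem P_e1_f2 (hG : PosD G) : PP (gramM G) (discKernel (gramM G) (coneM G)) χ (e1 r)
    (mk 0 0 0 1 0) := by
  intro N g hN hg
  have hN0 : N = 0 := by
    rw [bf_mk, bf_zero_left] at hN
    omega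
  subst hN0
  obtain ⟨s, hs⟩ := exS G
  have h4 := chi_PS (χ := χ) hs
  have hrel : s * g * (s * g) * (s * g) = s * s := eq_of_val (by
    show s.1.val * g.1.val * (s.1.val * g.1.val) * (s.1.val * g.1.val) = s.1.val * s.1.val
    rw [hs, hg]
    apply mat_ext
    intro x
    rw [mk_eta x]
    simp only [act_mul, act_T hG.symm, act_PS]
    congr 1 <;> ring)
  have h5 := congrArg χ hrel
  simp only [map_mul] at h5
  have h6 : χ s ^ 3 * χ g ^ 3 = χ s ^ 2 := by
    calc χ s ^ 3 * χ g ^ 3 = χ s * χ g * (χ s * χ g) * (χ s * χ g) := by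
          rw [← mul_pow, pow_succ, pow_two]
      _ = χ s ^ 2 := by rw [h5, pow_two]
  have h7 : χ s ^ 12 * χ g ^ 12 = χ s ^ 8 := by
    have := congrArg (fun u => u ^ 4) h6
    simp only [mul_pow, ← pow_mul] at this
    exact this
  have h8 : χ s ^ 12 = 1 := by
    rw [show 12 = 4 * 3 by norm_num, pow_mul, h4, one_pow]
  have h9 : χ s ^ 8 = 1 := by
    rw [show 8 = 4 * 2 by norm_num, pow_mul, h4, one_pow]
  rwa [h8, h9, one_mul] at h7

theorem P_e1_e2 (hG : PosD G) (he : ∀ i, Even (G i i)) :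
    PP (gramM G) (discKernel (gramM G) (coneM G)) χ (e1 r) (mk 0 0 1 0 0) := by
  obtain ⟨w, hw⟩ := exW G
  have := PP.conj (hyp hG he) (e1_iso (G := G)) (a := mk 0 0 0 1 0)
    (by rw [bf_mk, bf_zero_left]; ring) w (P_e1_f2 (χ := χ) hG)
  rw [hw, act_PW, act_PW] at this
  exact this

theorem P_e1_v (hG : PosD G) (he : ∀ i, Even (G i i)) (z : Fin r → ℤ) :
    PP (gramM G) (discKernel (gramM G) (coneM G)) χ (e1 r) (mk 0 0 0 0 z) := by
  have H := hyp hG he
  obtain ⟨N, hN⟩ := H.even (mk 0 0 0 0 z)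
  have hz0 : bf G (0 : Fin r → ℤ) z = 0 := bf_zero_left _ _
  have hz1 : bf G z (0 : Fin r → ℤ) = 0 := bf_zero_right _ _
  have hz2 : bf G (0 : Fin r → ℤ) 0 = 0 := bf_zero_left _ _
  obtain ⟨g, hg⟩ := H.tv (mk 0 0 1 0 0) (mk 0 0 0 0 z) N (by rw [bf_mk, hz2]; ring)
    (by rw [bf_mk, hz0]; ring) hN
  have hge : act g.1.val (e1 r) = e1 r := by
    rw [hg, act_tvZ H.symm, tv, bf_mk, bf_mk, hz1, hz2]
    simp
  have hgf : act g.1.val (mk 0 0 0 1 0) - mk 0 0 0 1 0 = mk 0 0 (-N) 0 z := by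
    rw [hg, act_tvZ H.symm, tv, bf_mk, bf_mk, hz1, hz2]
    simp only [mk_smul', mk_add', mk_sub']
    congr 1 <;> ring
  have h1 := PP.comm (χ := χ) H (e1_iso (G := G)) (c := mk 0 0 0 1 0)
    (by rw [bf_mk, hz2]; ring) g hge
  rw [hgf] at h1
  have m1 : mk 0 0 (-N) 0 z ∈ SS H χ (e1 r) e1_iso := ⟨by rw [bf_mk, hz0]; ring, h1⟩
  have m2 : mk 0 0 1 0 0 ∈ SS H χ (e1 r) e1_iso :=
    ⟨by rw [bf_mk, hz2]; ring, P_e1_e2 hG he⟩
  have m3 := (SS H χ (e1 r) e1_iso).add_mem m1 ((SS H χ (e1 r) e1_iso).zsmul_mem m2 N)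
  rw [mk_smul', mk_add'] at m3
  have e : (mk (0 + N * 0) (0 + N * 0) (-N + N * 1) (0 + N * 0) (z + N • (0 : Fin r → ℤ)) :
      Fin 4 ⊕ Fin r → ℤ) = mk 0 0 0 0 z := by
    congr 1 <;> ring
  rw [e] at m3
  exact m3.2

theorem P_e1 (hG : PosD G) (he : ∀ i, Even (G i i)) (c d : ℤ) (z : Fin r → ℤ) :
    PP (gramM G) (discKernel (gramM G) (coneM G)) χ (e1 r) (mk 0 0 c d z) := by
  have H := hyp hG he
  have hz0 : bf G (0 : Fin r → ℤ) z = 0 := bf_zero_left _ _
  have hz2 : bf G (0 : Fin r → ℤ) 0 = 0 := bf_zero_left _ _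
  have m1 : mk 0 0 0 0 z ∈ SS H χ (e1 r) e1_iso :=
    ⟨by rw [bf_mk, hz0]; ring, P_e1_v hG he z⟩
  have m2 : mk 0 0 1 0 0 ∈ SS H χ (e1 r) e1_iso :=
    ⟨by rw [bf_mk, hz2]; ring, P_e1_e2 hG he⟩
  have m3 : mk 0 0 0 1 0 ∈ SS H χ (e1 r) e1_iso :=
    ⟨by rw [bf_mk, hz2]; ring, P_e1_f2 hG⟩
  have m4 := (SS H χ (e1 r) e1_iso).add_mem ((SS H χ (e1 r) e1_iso).add_mem m1
    ((SS H χ (e1 r) e1_iso).zsmul_mem m2 c)) ((SS H χ (e1 r) e1_iso).zsmul_mem m3 d)
  rw [mk_smul', mk_smul', mk_add', mk_add'] at m4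
  have e : (mk (0 + c * 0 + d * 0) (0 + c * 0 + d * 0) (0 + c * 1 + d * 0) (0 + c * 0 + d * 1)
      (z + c • (0 : Fin r → ℤ) + d • (0 : Fin r → ℤ)) :
      Fin 4 ⊕ Fin r → ℤ) = mk 0 0 c d z := by
    congr 1 <;> ring
  rw [e] at m4
  exact m4.2

theorem kf_eq (e a : ℤ × (ℤ × (Fin r → ℤ))) : bf (gramM G) (kM e) (kM a) = kf G e a := by
  unfold kM kf
  rw [bf_mk]
  ring

theorem P_K (hG : PosD G) (he : ∀ i, Even (G i i)) (e a : ℤ × (ℤ × (Fin r → ℤ)))
    (hee : kf G e e = 0) (hea : kf G e a = 0) :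
    PP (gramM G) (discKernel (gramM G) (coneM G)) χ (kM e) (kM a) := by
  have H := hyp hG he
  rw [← kf_eq] at hee hea
  obtain ⟨N, hN⟩ := H.even (kM a)
  have hz0 : ∀ z : Fin r → ℤ, bf G (0 : Fin r → ℤ) z = 0 := fun z => bf_zero_left _ _
  have hz1 : ∀ z : Fin r → ℤ, bf G z (0 : Fin r → ℤ) = 0 := fun z => bf_zero_right _ _
  have h1a : bf (gramM G) (e1 r) (kM a) = 0 := by unfold kM; rw [bf_mk, hz0]; ring
  have hae1 : bf (gramM G) (kM a) (e1 r) = 0 := by unfold kM; rw [bf_mk, hz1]; ring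
  have h1e : bf (gramM G) (e1 r) (kM e) = 0 := by unfold kM; rw [bf_mk, hz0]; ring
  have he1 : bf (gramM G) (kM e) (e1 r) = 0 := by unfold kM; rw [bf_mk, hz1]; ring
  have haf : bf (gramM G) (kM a) (mk 1 0 0 0 0) = 0 := by unfold kM; rw [bf_mk, hz1]; ring
  have hef : bf (gramM G) (kM e) (mk 1 0 0 0 0) = 0 := by unfold kM; rw [bf_mk, hz1]; ring
  have h1f : bf (gramM G) (e1 r) (mk 1 0 0 0 0) = 1 := by rw [bf_mk, hz1]; ring
  have hae : bf (gramM G) (kM a) (kM e) = 0 := by rw [bf_comm H.symm, hea]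
  obtain ⟨g, hg⟩ := H.tv (e1 r) (kM a) N e1_iso h1a hN
  have hge : act g.1.val (kM e) = kM e := by
    rw [hg, act_tvZ H.symm, tv, hae, h1e]
    simp
  have hgf : act g.1.val (mk 1 0 0 0 0) - mk 1 0 0 0 0 = kM a - N • e1 r := by
    rw [hg, act_tvZ H.symm, tv, haf, h1f]
    simp only [zero_smul, one_smul, mul_one]
    abel
  have h1 := PP.comm (χ := χ) H hee (c := mk 1 0 0 0 0) hef g hge
  rw [hgf] at h1
  -- the transvection `t(e, e1) = t(e1, -e)`
  have h2 : PP (gramM G) (discKernel (gramM G) (coneM G)) χ (kM e) (e1 r) := by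
    intro N' k hN' hk
    rw [e1_iso] at hN'
    have h0 : N' = 0 := by omega
    subst h0
    rw [tvM_swap H.symm] at hk
    have h3 : - kM e = mk 0 0 (-e.1) (-e.2.1) (-e.2.2) := by
      unfold kM
      rw [mk_neg']
      simp
    rw [h3] at hk
    refine P_e1 hG he _ _ _ 0 k ?_ hk
    rw [← h3, bf_neg_left, bf_neg_right, hee]
    ring
  have m1 : kM a - N • e1 r ∈ SS H χ (kM e) hee :=
    ⟨by rw [bf_sub_right, bf_smul_right, hea, he1]; ring, h1⟩
  have m2 : e1 r ∈ SS H χ (kM e) hee := ⟨he1, h2⟩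
  have m3 := (SS H χ (kM e) hee).add_mem m1 ((SS H χ (kM e) hee).zsmul_mem m2 N)
  rw [sub_add_cancel] at m3
  exact m3.2

theorem chi_refl {e : Fin 4 ⊕ Fin r → ℤ} (hee : bf (gramM G) e e = -2)
    {g : discKernel (gramM G) (coneM G)}
    (hg : ∀ x : Fin 4 ⊕ Fin r → ℤ, act g.1.val x = x + bf (gramM G) e x • e) : χ g ^ 2 = 1 := by
  have : g * g = 1 := eq_of_val (by
    show g.1.val * g.1.val = 1
    apply mat_ext
    intro x
    rw [act_mul, hg x, hg, bf_add_right, bf_smul_right, hee, act_one]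
    funext i
    simp only [Pi.add_apply, Pi.smul_apply, smul_eq_mul]
    ring)
  have h2 := congrArg χ this
  rw [map_mul, map_one] at h2
  rw [pow_two]
  exact h2

theorem job : JobChar := by
  intro r G hG he χ g hg
  rcases hg with ⟨a, N, ha, hg⟩ | ⟨e, a, N, hee, hea, haa, hg⟩ | hg | hg | ⟨e, hee, hg⟩
  · refine P_e1 hG he a.1 a.2.1 a.2.2 N g ?_ hg
    have := kf_eq (G := G) a a
    rw [ha] at this
    exact this
  · exact P_K hG he e a hee hea N g (by rw [kf_eq, haa]) hg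
  · rw [show 12 = 4 * 3 by norm_num, pow_mul, chi_PS hg, one_pow]
  · rw [show 12 = 2 * 6 by norm_num, pow_mul, chi_PW hg, one_pow]
  · rw [show 12 = 2 * 6 by norm_num, pow_mul, chi_refl (by rw [kf_eq, hee]) hg, one_pow]

end concrete

end Pool.Agent.Y319.LE
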